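import Mathlib
import Pool.Agent.Helper29.RDDefs
import Pool.Agent.Helper29.SkewPS
import Pool.Agent.Helper29.BezoutPullback
import Pool.Agent.Helper29.RDPurity
import Pool.Agent.Helper29.BezoutExample

/-!
There is a domain that is right Bezout and left Bezout but is not an RD ring.

The ring is `R = D + K x + K x² + ⋯ ⊆ K[[x;σ]]`, where `K = ℚ(y)`, `D = ℚ[y]`, `σ(y) = 1/y`.
The module with generators `e₀, e₁` and relations `e₀ x = 0`, `e₀ (x/(y-1)) + e₁ x = 0` is not
a direct summand of a direct sum of cyclically presented modules.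
-/

namespace Pool.Agent.Results.MP_41551b_al.BezoutNotRD

open Pool.Agent.Helper29 Pool.Agent.Helper29.SkewPS

/-- The ring `D + K x + K x² + ⋯`. -/
abbrev RR : Type := ↥(withConst sig DD)

instance : NoZeroDivisors RR where
  eq_zero_or_eq_zero_of_mul_eq_zero := by
    intro a b h
    have h2 : (a : SkewPS KK sig) * (b : SkewPS KK sig) = 0 := congrArg Subtype.val h
    rcases mul_eq_zero.mp h2 with h3 | h3
    · exact Or.inl (Subtype.ext h3)
    · exact Or.inr (Subtype.ext h3)

theorem isDomain_RR : IsDomain RR := NoZeroDivisors.to_isDomain RR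

theorem mono_one_mem (a : KK) : mono sig 1 a ∈ withConst sig DD := by
  rw [mem_withConst, coeff_mono, if_neg (by norm_num)]
  exact DD.zero_mem

/-- The element `x`. -/
noncomputable def xx : RR := ⟨mono sig 1 1, mono_one_mem 1⟩

/-- The element `(1/(y-1)) x`. -/
noncomputable def yy : RR := ⟨mono sig 1 ff, mono_one_mem ff⟩

/-- The constant coefficient. -/
noncomputable def cc : RR →+ KK where
  toFun f := (f : SkewPS KK sig).coeff 0
  map_zero' := rfl
  map_add' _ _ := rfl

theorem cc_mul (f g : RR) : cc (f * g) = cc f * cc g := coeff_mul_zero _ _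

theorem cc_mem (f : RR) : cc f ∈ DD := f.2

theorem cc_xx : cc xx = 0 := rfl

theorem cc_yy : cc yy = 0 := rfl

theorem coeff_one_xx : (xx : SkewPS KK sig).coeff 1 = 1 := rfl

theorem coeff_one_yy : (yy : SkewPS KK sig).coeff 1 = ff := rfl

/-- the coefficient of `x` -/
noncomputable def c1 (f : RR) : KK := (f : SkewPS KK sig).coeff 1

theorem c1_add (f g : RR) : c1 (f + g) = c1 f + c1 g := rfl

theorem c1_mul (f g : RR) : c1 (f * g) = cc f * c1 g + c1 f * sig (cc g) :=
  coeff_mul_one _ _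

theorem c1_xx : c1 xx = 1 := rfl

theorem c1_yy : c1 yy = ff := rfl

theorem rank_one (h0 h1 s0 s1 r w0 w1 z0 z1 : RR) (e1 : s0 * xx = r * w0)
    (e2 : s0 * yy + s1 * xx = r * w1) (e3 : h0 * r = xx * z0 + yy * z1)
    (e4 : h1 * r = xx * z1) : cc (h0 * s0) = 0 := by
  have a1 : h0 * (s0 * xx) = (xx * z0 + yy * z1) * w0 := by rw [e1, ← mul_assoc, e3]
  have a2 : h0 * (s0 * yy + s1 * xx) = (xx * z0 + yy * z1) * w1 := by rw [e2, ← mul_assoc, e3]
  have a3 : h1 * (s0 * xx) = (xx * z1) * w0 := by rw [e1, ← mul_assoc, e4]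
  have a4 : h1 * (s0 * yy + s1 * xx) = (xx * z1) * w1 := by rw [e2, ← mul_assoc, e4]
  have b1 := congrArg c1 a1
  have b2 := congrArg c1 a2
  have b3 := congrArg c1 a3
  have b4 := congrArg c1 a4
  simp only [c1_mul, c1_add, map_add, cc_mul, cc_xx, cc_yy, c1_xx, c1_yy, mul_zero, zero_mul,
    mul_one, one_mul, add_zero, zero_add, map_zero] at b1 b2 b3 b4
  have hr := rigid (cc h0 * cc s0) (cc h0 * cc s1) (cc h1 * cc s0) (cc h1 * cc s1)
    (cc z0 * cc w0) (cc z0 * cc w1) (cc z1 * cc w0) (cc z1 * cc w1)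
    (DD.mul_mem (cc_mem _) (cc_mem _)) (DD.mul_mem (cc_mem _) (cc_mem _))
    (DD.mul_mem (cc_mem _) (cc_mem _)) (DD.mul_mem (cc_mem _) (cc_mem _))
    (DD.mul_mem (cc_mem _) (cc_mem _)) (DD.mul_mem (cc_mem _) (cc_mem _))
    (DD.mul_mem (cc_mem _) (cc_mem _)) (DD.mul_mem (cc_mem _) (cc_mem _))
    (by rw [b1, map_mul, map_mul]; ring)
    (by rw [map_mul, map_mul]; linear_combination b2)
    (by rw [b3, map_mul])
    (by rw [map_mul]; linear_combination b4)
  obtain ⟨hr0, hps⟩ := hr
  rw [cc_mul]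
  have : (cc h0 * cc s0) * (cc h0 * cc s0) = 0 := by
    calc (cc h0 * cc s0) * (cc h0 * cc s0) = (cc h0 * cc s0) * (cc h1 * cc s1) := by rw [hps]
      _ = (cc h1 * cc s0) * (cc h0 * cc s1) := by ring
      _ = 0 := by rw [hr0, zero_mul]
  exact mul_self_eq_zero.mp this

/-- There is a domain, right Bezout and left Bezout, that is not an RD ring. -/
theorem result : ∃ (R : Type) (_ : Ring R), IsDomain R ∧ IsRightBezout R ∧ IsLeftBezout R ∧
    ¬ IsRDRing.{0, 0} R := by
  refine ⟨RR, inferInstance, isDomain_RR, isRightBezout_withConst fracBezout_DD,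
    isLeftBezout_withConst fracBezout_DD, fun hRD => ?_⟩
  refine not_isRDRing_of (R := RR) cc ?_ xx yy ?_ ?_ rank_one (fun A hA => hRD _ A hA)
  · show (1 : SkewPS KK sig).coeff 0 ≠ 0
    rw [coeff_one_zero]
    exact one_ne_zero
  · intro u
    rw [cc_mul, cc_xx, zero_mul]
  · intro u
    rw [cc_mul, cc_yy, zero_mul]

end Pool.Agent.Results.MP_41551b_al.BezoutNotRD
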